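import Mathlib.NumberTheory.Chebyshev
import Mathlib.Analysis.SpecialFunctions.Pow.Asymptotics
import Mathlib.Analysis.Complex.ExponentialBounds

/-!
# C: primes in `(x, 4 x]`, from Chebyshev's bounds for `θ` in Mathlib
-/

set_option autoImplicit false

namespace Pool.Agent.Helper60.ZE

open Filter

/-- `θ (4 x) - θ x` is at most `log (4 x)` times the number of primes in `(x, 4 x]`. -/
theorem theta_sub_le (x : ℕ) : Chebyshev.theta (4 * x : ℕ) - Chebyshev.theta x ≤
    Real.log (4 * x : ℕ) * ((Finset.Ioc x (4 * x)).filter Nat.Prime).card := by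
  have h1 : Chebyshev.theta (4 * x : ℕ) - Chebyshev.theta x =
      ∑ p ∈ (Finset.Ioc x (4 * x)).filter Nat.Prime, Real.log p := by
    rw [Chebyshev.theta, Chebyshev.theta, Nat.floor_natCast, Nat.floor_natCast, Finset.sum_filter, Finset.sum_filter,
      Finset.sum_filter, sub_eq_iff_eq_add', ← Finset.sum_union (Finset.disjoint_left.mpr fun a h h' => by
        rw [Finset.mem_Ioc] at h h'
        omega), Finset.Ioc_union_Ioc_eq_Ioc (Nat.zero_le x) (by omega)]
  rw [h1, mul_comm (Real.log _), ← nsmul_eq_mul]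
  refine Finset.sum_le_card_nsmul _ _ _ fun p hp => ?_
  rw [Finset.mem_filter, Finset.mem_Ioc] at hp
  exact Real.log_le_log (by exact_mod_cast hp.2.pos) (by exact_mod_cast hp.1.2)

theorem card_primes_el : ∃ x0 : ℕ, ∀ x : ℕ, x0 ≤ x →
    (x : ℝ) ≤ Real.log x * ((Finset.Ioc x (4 * x)).filter Nat.Prime).card := by
  have h := (isLittleO_log_rpow_atTop (r := 1 / 2) (by norm_num)).def (c := 1 / 200) (by norm_num)
  obtain ⟨X, hX⟩ := Filter.eventually_atTop.mp h
  refine ⟨max 256 ⌈X⌉₊, fun x hx => ?_⟩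
  have h16 : 256 ≤ x := (le_max_left _ _).trans hx
  have hXx : X ≤ x := (Nat.le_ceil X).trans (by exact_mod_cast (le_max_right _ _).trans hx)
  have h16' : (256 : ℝ) ≤ x := by exact_mod_cast h16
  have hy : 0 ≤ Real.log (4 * (x : ℝ) + 1) := Real.log_nonneg (by linarith)
  have h1 := hX (4 * (x : ℝ) + 1) (by linarith)
  rw [Real.norm_of_nonneg hy, Real.norm_of_nonneg (Real.rpow_nonneg (by linarith) _), ← Real.sqrt_eq_rpow] at h1
  have h2 : Real.sqrt (4 * (x : ℝ) + 1) ≤ 3 * Real.sqrt x := by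
    rw [show (3 : ℝ) * Real.sqrt x = Real.sqrt (9 * x) by
      rw [Real.sqrt_mul (by norm_num), show (9 : ℝ) = 3 ^ 2 by norm_num, Real.sqrt_sq (by norm_num)]]
    exact Real.sqrt_le_sqrt (by linarith)
  have hs0 : 0 ≤ Real.sqrt x := Real.sqrt_nonneg _
  have hs : Real.sqrt x * Real.sqrt x = x := Real.mul_self_sqrt (by linarith)
  have hs1 : Real.sqrt x ≤ x := by
    have : 1 ≤ Real.sqrt x := by
      rw [← Real.sqrt_one]
      exact Real.sqrt_le_sqrt (by linarith)
    nlinarith
  have h3 : Real.log (4 * (x : ℝ)) ≤ Real.log (4 * (x : ℝ) + 1) :=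
    Real.log_le_log (by linarith) (by linarith)
  have h4 : Real.sqrt (4 * (x : ℝ)) = 2 * Real.sqrt x := by
    rw [Real.sqrt_mul (by norm_num), show (4 : ℝ) = 2 ^ 2 by norm_num, Real.sqrt_sq (by norm_num)]
  have h5 := Chebyshev.theta_ge (4 * x)
  have h6 := Chebyshev.theta_le_log4_mul_x (x := x) (by positivity)
  have h7 := theta_sub_le x
  push_cast at h5 h7
  rw [h4] at h5
  have h8 : Real.log 4 = 2 * Real.log 2 := by
    rw [show (4 : ℝ) = 2 ^ 2 by norm_num, Real.log_pow]
    norm_num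
  have h9 := Real.log_two_gt_d9
  have h10 : Real.log 256 ≤ Real.log x := Real.log_le_log (by norm_num) h16'
  have h11 : Real.log 256 = 4 * Real.log 4 := by
    rw [show (256 : ℝ) = 4 ^ 4 by norm_num, Real.log_pow]
    norm_num
  have h12 : Real.log (4 * (x : ℝ)) = Real.log 4 + Real.log x := Real.log_mul (by norm_num) (by linarith)
  have h13 : (0 : ℝ) ≤ ((Finset.Ioc x (4 * x)).filter Nat.Prime).card := Nat.cast_nonneg _
  have h14 : Real.sqrt x * Real.log (4 * (x : ℝ)) ≤ 3 / 200 * x := by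
    have : Real.log (4 * (x : ℝ)) ≤ 3 / 200 * Real.sqrt x := by linarith
    calc Real.sqrt x * Real.log (4 * (x : ℝ)) ≤ Real.sqrt x * (3 / 200 * Real.sqrt x) :=
          mul_le_mul_of_nonneg_left this hs0
      _ = 3 / 200 * (Real.sqrt x * Real.sqrt x) := by ring
      _ = 3 / 200 * x := by rw [hs]
  have h15 : 0 ≤ (x : ℝ) := by linarith
  have h16 : 4 / 5 * Real.log (4 * (x : ℝ)) ≤ Real.log x := by linarith
  have h17 : 4 / 5 * (Real.log (4 * (x : ℝ)) * ((Finset.Ioc x (4 * x)).filter Nat.Prime).card) ≤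
      Real.log x * ((Finset.Ioc x (4 * x)).filter Nat.Prime).card := by
    rw [← mul_assoc]
    exact mul_le_mul_of_nonneg_right h16 h13
  have h18 : (0.6931471803 : ℝ) * x ≤ Real.log 2 * x := mul_le_mul_of_nonneg_right h9.le h15
  rw [h8] at h6
  nlinarith

end Pool.Agent.Helper60.ZE
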