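import Pool.Agent.Helper96.PNT

/-!
# C: primes in `(x, 4 x]`
-/

set_option autoImplicit false

namespace Pool.Agent.Helper60.ZE

open Filter

theorem card_primes : ∃ x0 : ℕ, ∀ x : ℕ, x0 ≤ x →
    (x : ℝ) ≤ Real.log x * ((Finset.Ioc x (4 * x)).filter Nat.Prime).card := by
  have h := Helper96.PNT.eventually_primes_short (c := 3 / 4) (by norm_num) (by norm_num)
  obtain ⟨X, hX⟩ := Filter.eventually_atTop.mp h
  refine ⟨max 16 ⌈X⌉₊, fun x hx => ?_⟩
  have h16 : 16 ≤ x := (le_max_left _ _).trans hx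
  have hXx : X ≤ x := (Nat.le_ceil X).trans (by exact_mod_cast (le_max_right _ _).trans hx)
  have h16' : (16 : ℝ) ≤ x := by exact_mod_cast h16
  have h1 := hX (4 * (x : ℝ)) (by linarith)
  have h2 : ((Finset.Icc 1 ⌊4 * (x : ℝ)⌋₊).filter (fun p : ℕ => p.Prime ∧ (1 - 3 / 4) * (4 * (x : ℝ)) < p)) ⊆
      (Finset.Ioc x (4 * x)).filter Nat.Prime := by
    intro p hp
    rw [Finset.mem_filter, Finset.mem_Icc] at hp
    obtain ⟨⟨h3, h4⟩, h5, h6⟩ := hp
    have h7 : ⌊4 * (x : ℝ)⌋₊ = 4 * x := by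
      have : (4 : ℝ) * x = ((4 * x : ℕ) : ℝ) := by push_cast; ring
      rw [this, Nat.floor_natCast]
    rw [h7] at h4
    have h8 : (x : ℝ) < p := by linarith
    rw [Finset.mem_filter, Finset.mem_Ioc]
    exact ⟨⟨by exact_mod_cast h8, h4⟩, h5⟩
  have h3 : (((Finset.Icc 1 ⌊4 * (x : ℝ)⌋₊).filter
      (fun p : ℕ => p.Prime ∧ (1 - 3 / 4) * (4 * (x : ℝ)) < p)).card : ℝ) ≤
      ((Finset.Ioc x (4 * x)).filter Nat.Prime).card := by
    exact Nat.cast_le.mpr (Finset.card_le_card h2)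
  have hlx : 0 < Real.log x := Real.log_pos (by linarith)
  have hl4 : Real.log (4 * (x : ℝ)) ≤ 3 / 2 * Real.log x := by
    rw [Real.log_mul (by norm_num) (by linarith)]
    have h4 : Real.log 16 ≤ Real.log x := Real.log_le_log (by norm_num) h16'
    have h5 : Real.log 16 = 2 * Real.log 4 := by
      rw [show (16 : ℝ) = 4 ^ 2 by norm_num, Real.log_pow]
      norm_num
    linarith
  have hl0 : 0 < Real.log (4 * (x : ℝ)) := Real.log_pos (by linarith)
  have h5 := h1.trans h3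
  rw [div_le_iff₀ hl0] at h5
  have h6 : (0 : ℝ) ≤ ((Finset.Ioc x (4 * x)).filter Nat.Prime).card := Nat.cast_nonneg _
  nlinarith

end Pool.Agent.Helper60.ZE
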